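import Pool.Agent.H657R2.Inc.PolyRed
import Pool.Agent.NPC.Dec

/-!
# Deciding independence of plane point-line incidence structures is NP-hard

An incidence structure is given by the lists of its points, lines and incidences (`IncStr`,
`IsStr`).  It is independent (`Independent`) if at some non-degenerate realization in the plane
(points `(xᵢ, yᵢ)`, non-vertical lines `Aʲ x + y + Cʲ = 0`) the rows of the coefficient matrix
`J_S(p, P)` of the linearised incidence equations are linearly independent.

Complexity notions are those of `Pool.Agent.NPC.Defs`: polynomial time is Mathlib's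
`Turing.TM2ComputableInPolyTime` on bit strings, `NP` is defined by certificates, hardness is
under polynomial-time many-one reductions; data are coded by bit strings (`bits`), numbers in
binary.

The reduction is from 3-SAT.  Two points on two common lines coincide or the two lines coincide;
two points with three common lines cannot coincide at an independent realization, and dually.
-/

namespace Pool.Agent.Results.MP_5661ce_lc.IndependenceNPHard

open Pool.Agent.NPC Pool.Agent.H657R2.Inc

theorem hard : HardPr (fun S : IncStr => IsStr S ∧ S.1 = List.range S.1.length ∧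
    S.2.1 = List.range S.2.1.length) (fun S : IncStr => IsStr S ∧ Independent S) := by
  refine hardPr_SAT3.trans pred (fun φ _ => ⟨red_isStr φ, ?_, ?_⟩) fun φ _ => ?_
  · simp [red]
  · simp [red]
  · rw [correct φ]
    exact ⟨fun h => ⟨red_isStr φ, h⟩, fun h => h.2⟩

theorem length_le {S : IncStr} (hS : IsStr S) (h1 : S.1 = List.range S.1.length)
    (h2 : S.2.1 = List.range S.2.1.length) :
    (bits S).length ≤ 30 * (S.1.length + S.2.1.length + S.2.2.length + 1) ^ 2 := by
  obtain ⟨V, F, I⟩ := S
  simp only at h1 h2
  have e1 := NPC.Poly.sz_range_le V.length V.length le_rfl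
  have e2 := NPC.Poly.sz_range_le F.length F.length le_rfl
  rw [← h1] at e1
  rw [← h2] at e2
  have e3 := sz_le_length_mul I (4 * V.length + 4 * F.length + 3) (by
    rintro ⟨i, j⟩ he
    obtain ⟨h3, h4⟩ := hS.2.2.2 _ he
    simp only at h3 h4
    rw [h1, List.mem_range] at h3
    rw [h2, List.mem_range] at h4
    have a1 := sz_nat_le i
    have a2 := NPC.Poly.size_le_self i
    have a3 := sz_nat_le j
    have a4 := NPC.Poly.size_le_self j
    rw [sz_pair]
    omega)
  rw [bits_length, sz_pair, sz_pair]
  simp only
  nlinarith [Nat.zero_le V.length, Nat.zero_le F.length, Nat.zero_le I.length,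
    Nat.zero_le (V.length * F.length), Nat.zero_le (V.length * I.length),
    Nat.zero_le (F.length * I.length), Nat.zero_le (I.length * I.length)]

/-- **Deciding independence of plane point-line incidence structures is NP-hard.**
(1) The language of all (codes of) independent incidence structures is NP-hard.
(2) If a function `A` computable in polynomial time decides independence of all incidence
structures with points `0, …, n - 1` and lines `0, …, m - 1`, then `P = NP`.
(3) The code of such a structure has length at most `30 (|V| + |F| + |I| + 1) ^ 2`, so in (2) it
makes no difference whether polynomial time is measured in the length of the code or in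
`|V| + |F| + |I|`. -/
theorem result :
    NPHardP (fun S : IncStr => IsStr S ∧ Independent S) ∧
    (∀ A : List Bool → List Bool, PolyTime A →
      (∀ S : IncStr, IsStr S → S.1 = List.range S.1.length → S.2.1 = List.range S.2.1.length →
        (A (bits S) = [true] ↔ Independent S)) →
      ∀ L : Set (List Bool), InNP L → InP L) ∧
    (∀ S : IncStr, IsStr S → S.1 = List.range S.1.length → S.2.1 = List.range S.2.1.length →
      (bits S).length ≤ 30 * (S.1.length + S.2.1.length + S.2.2.length + 1) ^ 2) := by
  refine ⟨hard.toHardI.toNPHardP, ?_, fun S hS h1 h2 => length_le hS h1 h2⟩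
  intro A hA h L hL
  obtain ⟨f, hf, hpr, hfL⟩ := hard L hL
  refine ⟨fun x => A (bits (f x)), H642R2.TMSim.polyTime_comp hA (PC.toPolyTime hf), fun x => ?_⟩
  rw [hfL x, h _ (hpr x).1 (hpr x).2.1 (hpr x).2.2]
  exact ⟨fun h => h.2, fun h => ⟨(hpr x).1, h⟩⟩

end Pool.Agent.Results.MP_5661ce_lc.IndependenceNPHard
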